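import Pool.Agent.H91.TC.Basic

/-! Closing lemma for diffeomorphisms with a torus symmetry: small elements of the group are
`C²`-close to the identity (row CVA). -/

set_option autoImplicit false

open Set Function Topology Metric Filter
open scoped Manifold

namespace Pool.Agent.H82.TSC

open Pool.Agent.H88.CL Pool.Agent.H88.CM Pool.Agent.H91.TC

noncomputable section

/-- Partial derivative of a differentiable function of two variables. -/
theorem fderiv_part {V W Z : Type} [NormedAddCommGroup V] [NormedSpace ℝ V]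
    [NormedAddCommGroup W] [NormedSpace ℝ W] [NormedAddCommGroup Z] [NormedSpace ℝ Z]
    {G : V × W → Z} {w : V} {v : W} (h : DifferentiableAt ℝ G (w, v)) :
    fderiv ℝ (fun u => G (w, u)) v = (fderiv ℝ G (w, v)).comp (ContinuousLinearMap.inr ℝ V W) := by
  have h1 : HasFDerivAt (fun u : W => (w, u)) (ContinuousLinearMap.inr ℝ V W) v :=
    hasFDerivAt_prodMk_right w v
  exact (h.hasFDerivAt.comp v h1).fderiv

/-- The `2`-jets of the partial functions of a `C²` function of two variables are continuous. -/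
theorem jet_part {n : ℕ} {V : Type} [NormedAddCommGroup V] [NormedSpace ℝ V]
    {G : V × E n → E n} {w0 : V} {v0 : E n} (hG : ContDiffAt ℝ 2 G (w0, v0)) :
    ContinuousAt (fun p : V × E n => jet (fun u => G (p.1, u)) p.2) (w0, v0) := by
  set I := ContinuousLinearMap.inr ℝ V (E n) with hI
  set D1 : V × E n → (E n →L[ℝ] E n) := fun p => (fderiv ℝ G p).comp I with hD1
  have hG1 : ∀ᶠ p in 𝓝 (w0, v0), ContDiffAt ℝ 2 G p := hG.eventually (by simp)
  have hDc : ContDiffAt ℝ 1 D1 (w0, v0) := by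
    have h1 : ContDiffAt ℝ 1 (fderiv ℝ G) (w0, v0) := hG.fderiv_right (m := 1) (by norm_num)
    exact h1.clm_comp contDiffAt_const
  have hD1' : ∀ᶠ p in 𝓝 (w0, v0), ContDiffAt ℝ 1 D1 p := hDc.eventually (by simp)
  have hE : ∀ᶠ p in 𝓝 (w0, v0), fderiv ℝ (fun u => G (p.1, u)) p.2 = D1 p := by
    filter_upwards [hG1] with p hp
    exact fderiv_part (G := G) (w := p.1) (v := p.2) (hp.differentiableAt (by norm_num))
  have hEE : ∀ᶠ p in 𝓝 (w0, v0), ∀ᶠ q in 𝓝 p, fderiv ℝ (fun u => G (q.1, u)) q.2 = D1 q :=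
    eventually_eventually_nhds.2 hE
  have hS : ∀ᶠ p in 𝓝 (w0, v0),
      fderiv ℝ (fderiv ℝ (fun u => G (p.1, u))) p.2 = (fderiv ℝ D1 p).comp I := by
    filter_upwards [hEE, hD1'] with p h1 h2
    have h3 : fderiv ℝ (fun u => G (p.1, u)) =ᶠ[𝓝 p.2] fun u => D1 (p.1, u) := by
      have h4 : Tendsto (fun u : E n => (p.1, u)) (𝓝 p.2) (𝓝 p) := by
        have : Continuous (fun u : E n => (p.1, u)) := by fun_prop
        exact this.tendsto p.2
      filter_upwards [h4.eventually h1] with u hu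
      exact hu
    rw [h3.fderiv_eq]
    exact fderiv_part (G := D1) (w := p.1) (v := p.2) (h2.differentiableAt (by norm_num))
  have hc1 : ContinuousAt D1 (w0, v0) := hDc.continuousAt
  have hc2 : ContinuousAt (fun p => (fderiv ℝ D1 p).comp I) (w0, v0) := by
    have h0 : ContDiffAt ℝ 0 (fderiv ℝ D1) (w0, v0) := hDc.fderiv_right (m := 0) (by norm_num)
    exact h0.continuousAt.clm_comp continuousAt_const
  have hc : ContinuousAt (fun p : V × E n => ((G p, D1 p, (fderiv ℝ D1 p).comp I) : J n))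
      (w0, v0) := hG.continuousAt.prodMk (hc1.prodMk hc2)
  refine hc.congr ?_
  filter_upwards [hE, hS] with p h1 h2
  have h3 : jet (fun u => G (p.1, u)) p.2 = ((G p, D1 p, (fderiv ℝ D1 p).comp I) : J n) := by
    unfold jet
    rw [h1, h2]
  exact h3.symm

theorem contMDiff_act {n k : ℕ} {M : Type} [TopologicalSpace M] [ChartedSpace (E n) M]
    {a : E k → M → M} (ha : Act n k a) (w : E k) :
    ContMDiff 𝓘(ℝ, E n) 𝓘(ℝ, E n) 2 (a w) := by
  have h1 : ContMDiff 𝓘(ℝ, E n) (𝓘(ℝ, E k).prod 𝓘(ℝ, E n)) 2 (fun y : M => (w, y)) :=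
    contMDiff_const.prodMk contMDiff_id
  exact ha.c2.comp h1

theorem pf_CVA : T_CVA := by
  intro n k M _ _ _ _ a ha w hw
  refine ⟨fun i => contMDiff_act ha (w i), ?_, ?_⟩
  · intro y
    have hc : Continuous (fun p : E k × M => a p.1 p.2) := ha.c2.continuous
    have h1 : Tendsto (fun p : E k × M => a p.1 p.2) (𝓝 (0, y)) (𝓝 (a 0 y)) := hc.tendsto (0, y)
    rw [ha.zero y, nhds_prod_eq] at h1
    have h2 : Tendsto (fun p : ℕ × M => (w p.1, p.2)) (atTop ×ˢ 𝓝 y) (𝓝 0 ×ˢ 𝓝 y) :=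
      (hw.comp tendsto_fst).prodMk tendsto_snd
    exact h1.comp h2
  · intro y φ ψ hφ hψ hy hfy
    have hG : ContDiffAt ℝ 2 (fun p : E k × E n => ψ (a p.1 (φ.symm p.2))) (0, φ y) := by
      have e1 : φ.symm (φ y) = y := φ.left_inv hy
      have hs : ContMDiffAt 𝓘(ℝ, E n) 𝓘(ℝ, E n) 2 φ.symm (φ y) :=
        contMDiffAt_symm_of_mem_maximalAtlas hφ (φ.map_source hy)
      have hs2 : ContMDiffAt (𝓘(ℝ, E k).prod 𝓘(ℝ, E n)) 𝓘(ℝ, E n) 2
          (fun p : E k × E n => φ.symm p.2) ((0 : E k), φ y) :=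
        ContMDiffAt.comp (g := φ.symm) (f := fun p : E k × E n => p.2) ((0 : E k), φ y) hs
          contMDiffAt_snd
      have hp : ContMDiffAt (𝓘(ℝ, E k).prod 𝓘(ℝ, E n)) (𝓘(ℝ, E k).prod 𝓘(ℝ, E n)) 2
          (fun p : E k × E n => (p.1, φ.symm p.2)) ((0 : E k), φ y) :=
        contMDiffAt_fst.prodMk hs2
      have hq : ContMDiffAt (𝓘(ℝ, E k).prod 𝓘(ℝ, E n)) 𝓘(ℝ, E n) 2
          (fun p : E k × E n => a p.1 (φ.symm p.2)) ((0 : E k), φ y) :=
        ContMDiffAt.comp (g := fun p : E k × M => a p.1 p.2)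
          (f := fun p : E k × E n => (p.1, φ.symm p.2)) ((0 : E k), φ y) (ha.c2 _) hp
      have hψ' : ContMDiffAt 𝓘(ℝ, E n) 𝓘(ℝ, E n) 2 ψ (a 0 (φ.symm (φ y))) := by
        rw [ha.zero, e1]
        exact contMDiffAt_of_mem_maximalAtlas hψ hfy
      have hr : ContMDiffAt (𝓘(ℝ, E k).prod 𝓘(ℝ, E n)) 𝓘(ℝ, E n) 2
          (fun p : E k × E n => ψ (a p.1 (φ.symm p.2))) ((0 : E k), φ y) :=
        ContMDiffAt.comp (g := ψ) (f := fun p : E k × E n => a p.1 (φ.symm p.2))
          ((0 : E k), φ y) hψ' hq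
      rw [← contMDiffAt_iff_contDiffAt, modelWithCornersSelf_prod, ← chartedSpaceSelf_prod]
      exact hr
    have h1 := jet_part hG
    have h2 : Tendsto (fun p : ℕ × E n => (w p.1, p.2)) (atTop ×ˢ 𝓝 (φ y)) (𝓝 ((0 : E k), φ y)) := by
      rw [nhds_prod_eq]
      exact (hw.comp tendsto_fst).prodMk tendsto_snd
    have h3 := h1.tendsto.comp h2
    have e2 : (fun u : E n => ψ (a ((0 : E k), φ y).1 (φ.symm u))) = rep φ ψ id := by
      funext u
      change ψ (a 0 (φ.symm u)) = ψ (id (φ.symm u))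
      rw [ha.zero]
      rfl
    change Tendsto _ _ (𝓝 (jet (fun u : E n => ψ (a ((0 : E k), φ y).1 (φ.symm u)))
      ((0 : E k), φ y).2)) at h3
    rw [e2] at h3
    exact h3

end

end Pool.Agent.H82.TSC
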